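import Pool.Agent.R129.Hfp.Main
import Pool.Agent.R140.PK.Three

/-!
# `1/2`-flow-pairs and Petersen quotients: classes closed under contraction of connected sets
-/

set_option autoImplicit false
set_option linter.unusedSectionVars false
set_option linter.unusedVariables false

namespace Pool.Agent.J6H24.HFC

open Finset Pool.Agent.H160R2.HF Pool.Agent.H179R3.HF Pool.Agent.TH499.NF Pool.Agent.R129.Hfp
open Pool.Agent.TH362.TF (nb padj IsPQ PQ Joins NZ N1)
open Pool.Agent.R140.PK (cu mem_cu ctr MinP PetComp FC ConnS exists_MinP)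

variable {V E : Type} [Fintype V] [DecidableEq V] [Fintype E] [DecidableEq E]

/-- the graph has a `1/2`-flow-pair, and all admissible values at vertices of degree three extend -/
def PP (s t : E → V) : Prop :=
  (∃ φ₂ φ₄ : E → ℤ, (⟨s, t⟩ : OrGraph V E).IsHalfFlowPair φ₂ φ₄) ∧
    ∀ w, FlexAt (⟨s, t⟩ : OrGraph V E) w

theorem ctr_eq {A : Finset V} {a : V} (ha : a ∈ A) {s : E → V} {e : E} {v : V} (hv : v ∉ A) :
    ctr A a s e = v ↔ s e = v := by
  unfold ctr
  split_ifs with h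
  · constructor
    · intro h1
      exact absurd (h1 ▸ ha) hv
    · intro h1
      exact absurd (h1 ▸ h) hv
  · exact Iff.rfl

theorem ctr_eq' {A : Finset V} {a : V} (ha : a ∈ A) {s : E → V} {e : E} :
    ctr A a s e = a ↔ s e ∈ A := by
  unfold ctr
  split_ifs with h
  · exact ⟨fun _ => h, fun _ => rfl⟩
  · exact ⟨fun h1 => absurd (h1 ▸ ha) h, fun h1 => absurd h1 h⟩

theorem flow_glue {s t : E → V} {A : Finset V} {x y : E → ℤ}
    (hx : ∀ v, v ∉ A → ∑ e with s e = v, x e = ∑ e with t e = v, x e)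
    (hy : ∀ v ∈ A, ∑ e with s e = v, y e = ∑ e with t e = v, y e)
    (hag : ∀ e ∈ cu s t A, x e = y e) :
    (⟨s, t⟩ : OrGraph V E).IsFlow (fun e => if s e ∈ A ∨ t e ∈ A then y e else x e) := by
  intro v
  show ∑ e with s e = v, _ = ∑ e with t e = v, _
  by_cases hv : v ∈ A
  · have e1 : ∑ e with s e = v, (if s e ∈ A ∨ t e ∈ A then y e else x e) =
        ∑ e with s e = v, y e := by
      refine sum_congr rfl fun e he => ?_
      rw [if_pos (Or.inl (by rw [(mem_filter.1 he).2]; exact hv))]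
    have e2 : ∑ e with t e = v, (if s e ∈ A ∨ t e ∈ A then y e else x e) =
        ∑ e with t e = v, y e := by
      refine sum_congr rfl fun e he => ?_
      rw [if_pos (Or.inr (by rw [(mem_filter.1 he).2]; exact hv))]
    rw [e1, e2, hy v hv]
  · have e1 : ∑ e with s e = v, (if s e ∈ A ∨ t e ∈ A then y e else x e) =
        ∑ e with s e = v, x e := by
      refine sum_congr rfl fun e he => ?_
      have h1 : s e ∉ A := by rw [(mem_filter.1 he).2]; exact hv
      by_cases h2 : t e ∈ A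
      · rw [if_pos (Or.inr h2), hag e (by rw [mem_cu]; tauto)]
      · rw [if_neg (by tauto)]
    have e2 : ∑ e with t e = v, (if s e ∈ A ∨ t e ∈ A then y e else x e) =
        ∑ e with t e = v, x e := by
      refine sum_congr rfl fun e he => ?_
      have h1 : t e ∉ A := by rw [(mem_filter.1 he).2]; exact hv
      by_cases h2 : s e ∈ A
      · rw [if_pos (Or.inl h2), hag e (by rw [mem_cu]; tauto)]
      · rw [if_neg (by tauto)]
    rw [e1, e2, hx v hv]

theorem flow_out {s t : E → V} {A : Finset V} {a : V} (ha : a ∈ A) {x : E → ℤ}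
    (h : (⟨ctr A a s, ctr A a t⟩ : OrGraph V E).IsFlow x) {v : V} (hv : v ∉ A) :
    ∑ e with s e = v, x e = ∑ e with t e = v, x e := by
  have h1 := h v
  have e1 : univ.filter (fun e => ctr A a s e = v) = univ.filter (fun e => s e = v) :=
    filter_congr fun e _ => ctr_eq ha hv
  have e2 : univ.filter (fun e => ctr A a t e = v) = univ.filter (fun e => t e = v) :=
    filter_congr fun e _ => ctr_eq ha hv
  change ∑ e with ctr A a s e = v, x e = ∑ e with ctr A a t e = v, x e at h1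
  rw [e1, e2] at h1
  exact h1

theorem glue2 {s t : E → V} {A1 A2 : Finset V} {a1 a2 : V} (h1 : a1 ∈ A1) (h2 : a2 ∈ A2)
    (hd : Disjoint A1 A2) {x2 x4 y2 y4 : E → ℤ}
    (hx : (⟨ctr A1 a1 s, ctr A1 a1 t⟩ : OrGraph V E).IsHalfFlowPair x2 x4)
    (hy : (⟨ctr A2 a2 s, ctr A2 a2 t⟩ : OrGraph V E).IsHalfFlowPair y2 y4)
    (hag : ∀ e ∈ cu s t A1, x2 e = y2 e ∧ x4 e = y4 e) :
    (⟨s, t⟩ : OrGraph V E).IsHalfFlowPair
      (fun e => if s e ∈ A1 ∨ t e ∈ A1 then y2 e else x2 e)
      (fun e => if s e ∈ A1 ∨ t e ∈ A1 then y4 e else x4 e) := by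
  obtain ⟨p1, p2, p3⟩ := (pair_iff_ok _ _ _).1 hx
  obtain ⟨q1, q2, q3⟩ := (pair_iff_ok _ _ _).1 hy
  rw [pair_iff_ok]
  refine ⟨flow_glue (fun v hv => flow_out h1 p1 hv)
    (fun v hv => flow_out h2 q1 (disjoint_left.1 hd hv)) (fun e he => (hag e he).1),
    flow_glue (fun v hv => flow_out h1 p2 hv)
    (fun v hv => flow_out h2 q2 (disjoint_left.1 hd hv)) (fun e he => (hag e he).2), ?_⟩
  intro e
  by_cases h : s e ∈ A1 ∨ t e ∈ A1
  · simp only [h, if_true]; exact q3 e
  · simp only [h, if_false]; exact p3 e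

theorem cut_ctr {s t : E → V} {A : Finset V} {a : V} (ha : a ∈ A) :
    (⟨ctr A a s, ctr A a t⟩ : OrGraph V E).cut {a} = cu s t A := by
  ext e
  rw [mem_cut, mem_cu, mem_singleton, mem_singleton]
  show ¬ (ctr A a s e = a ↔ ctr A a t e = a) ↔ _
  rw [ctr_eq' ha, ctr_eq' ha]

theorem cut_ctr' {s t : E → V} {A : Finset V} {a : V} (ha : a ∈ A) {w : V} (hw : w ∉ A) :
    (⟨ctr A a s, ctr A a t⟩ : OrGraph V E).cut {w} = (⟨s, t⟩ : OrGraph V E).cut {w} := by
  ext e
  rw [mem_cut, mem_cut, mem_singleton, mem_singleton, mem_singleton, mem_singleton]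
  show ¬ (ctr A a s e = w ↔ ctr A a t e = w) ↔ ¬ (s e = w ↔ t e = w)
  rw [ctr_eq ha hw, ctr_eq ha hw]

/-- the sum of the outflows at the vertex to which `A` is contracted -/
theorem out_ctr {s t : E → V} {A : Finset V} {a : V} (ha : a ∈ A) (x : E → ℤ) :
    ∑ e ∈ (⟨ctr A a s, ctr A a t⟩ : OrGraph V E).cut {a},
      (if (⟨ctr A a s, ctr A a t⟩ : OrGraph V E).t e = a then x e else - x e) =
      ∑ e ∈ cu s t A, (if s e ∈ A then x e else - x e) := by
  rw [cut_ctr ha]
  refine sum_congr rfl fun e _ => ?_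
  have h1 : (⟨ctr A a s, ctr A a t⟩ : OrGraph V E).t e = a ↔ s e ∈ A := ctr_eq' ha
  by_cases h : s e ∈ A
  · rw [if_pos h, if_pos (h1.2 h)]
  · rw [if_neg h, if_neg (fun h' => h (h1.1 h'))]

/-- extension from one side of a cut with three edges to the other side -/
theorem ext_side {s t : E → V} {A1 A2 : Finset V} {a1 a2 : V} (h1 : a1 ∈ A1) (h2 : a2 ∈ A2)
    (hd : Disjoint A1 A2) (h3 : (cu s t A1).card = 3) (hc : cu s t A2 = cu s t A1)
    {x2 x4 : E → ℤ} (hx : (⟨ctr A1 a1 s, ctr A1 a1 t⟩ : OrGraph V E).IsHalfFlowPair x2 x4)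
    (hF : FlexAt (⟨ctr A2 a2 s, ctr A2 a2 t⟩ : OrGraph V E) a2) :
    ∃ y2 y4 : E → ℤ, (⟨ctr A2 a2 s, ctr A2 a2 t⟩ : OrGraph V E).IsHalfFlowPair y2 y4 ∧
      ∀ e ∈ cu s t A1, y2 e = x2 e ∧ y4 e = x4 e := by
  obtain ⟨p1, p2, p3⟩ := (pair_iff_ok _ _ _).1 hx
  have key : ∀ x : E → ℤ, (⟨ctr A1 a1 s, ctr A1 a1 t⟩ : OrGraph V E).IsFlow x →
      ∑ e ∈ (⟨ctr A2 a2 s, ctr A2 a2 t⟩ : OrGraph V E).cut {a2},
      (if (⟨ctr A2 a2 s, ctr A2 a2 t⟩ : OrGraph V E).t e = a2 then x e else - x e) = 0 := by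
    intro x hxf
    have h4 := net_cut hxf a1
    rw [out_ctr h1] at h4
    rw [out_ctr h2, hc]
    have h5 : ∑ e ∈ cu s t A1, (if s e ∈ A2 then x e else - x e) =
        - ∑ e ∈ cu s t A1, (if s e ∈ A1 then x e else - x e) := by
      rw [← sum_neg_distrib]
      refine sum_congr rfl fun e he => ?_
      have he2 : e ∈ cu s t A2 := by rw [hc]; exact he
      rw [mem_cu] at he he2
      by_cases h6 : s e ∈ A1
      · have h7 : s e ∉ A2 := disjoint_left.1 hd h6
        rw [if_pos h6, if_neg h7]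
      · have h8 : t e ∈ A1 := by tauto
        have h9 : t e ∉ A2 := disjoint_left.1 hd h8
        have h10 : s e ∈ A2 := by tauto
        rw [if_neg h6, if_pos h10, neg_neg]
    rw [h5, h4, neg_zero]
  obtain ⟨y2, y4, q1, q2⟩ := hF (by rw [cut_ctr h2, hc]; exact h3) x2 x4 (key x2 p1) (key x4 p2)
    (fun e _ => p3 e)
  rw [cut_ctr h2, hc] at q2
  exact ⟨y2, y4, q1, q2⟩

/-- the property is preserved by sums along cuts with three edges -/
theorem pp_sum {s t : E → V} (A1 A2 : Finset V) (a1 a2 : V) (h1 : a1 ∈ A1) (h2 : a2 ∈ A2)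
    (hd : Disjoint A1 A2) (h3 : (cu s t A1).card = 3) (hc : cu s t A2 = cu s t A1)
    (hP1 : PP (ctr A1 a1 s) (ctr A1 a1 t)) (hP2 : PP (ctr A2 a2 s) (ctr A2 a2 t)) : PP s t := by
  obtain ⟨⟨x2, x4, hx⟩, hF1⟩ := hP1
  obtain ⟨⟨z2, z4, hz⟩, hF2⟩ := hP2
  refine ⟨?_, ?_⟩
  · obtain ⟨y2, y4, hy, hag⟩ := ext_side h1 h2 hd h3 hc hx (hF2 a2)
    exact ⟨_, _, glue2 h1 h2 hd hx hy fun e he => ⟨(hag e he).1.symm, (hag e he).2.symm⟩⟩
  · intro w hw α β hα hβ hok
    by_cases hwA : w ∈ A1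
    · have hwB : w ∉ A2 := disjoint_left.1 hd hwA
      have hcut := cut_ctr' (s := s) (t := t) h2 hwB
      have hs : ∀ γ : E → ℤ, ∑ e ∈ (⟨ctr A2 a2 s, ctr A2 a2 t⟩ : OrGraph V E).cut {w},
          (if (⟨ctr A2 a2 s, ctr A2 a2 t⟩ : OrGraph V E).t e = w then γ e else - γ e) =
          ∑ e ∈ (⟨s, t⟩ : OrGraph V E).cut {w},
          (if (⟨s, t⟩ : OrGraph V E).t e = w then γ e else - γ e) := by
        intro γ
        rw [hcut]
        refine sum_congr rfl fun e _ => ?_
        have h4 : (⟨ctr A2 a2 s, ctr A2 a2 t⟩ : OrGraph V E).t e = w ↔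
            (⟨s, t⟩ : OrGraph V E).t e = w := ctr_eq h2 hwB
        by_cases h : (⟨s, t⟩ : OrGraph V E).t e = w
        · rw [if_pos h, if_pos (h4.2 h)]
        · rw [if_neg h, if_neg (fun h' => h (h4.1 h'))]
      obtain ⟨y2, y4, hy, hyv⟩ := hF2 w (by rw [hcut]; exact hw) α β (by rw [hs]; exact hα)
        (by rw [hs]; exact hβ) (by rw [hcut]; exact hok)
      rw [hcut] at hyv
      obtain ⟨u2, u4, hu, hag⟩ := ext_side h2 h1 hd.symm (by rw [hc]; exact h3) hc.symm hy
        (hF1 a1)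
      rw [hc] at hag
      refine ⟨_, _, glue2 h1 h2 hd hu hy hag, ?_⟩
      intro e he
      have hin : s e ∈ A1 ∨ t e ∈ A1 := by
        rw [mem_cut, mem_singleton, mem_singleton] at he
        by_cases h5 : s e = w
        · left; rw [h5]; exact hwA
        · have h6 : t e = w := by
            by_contra h6
            exact he ⟨fun h => absurd h h5, fun h => absurd h h6⟩
          right; rw [h6]; exact hwA
      simp only [hin, if_true]
      exact hyv e he
    · have hcut := cut_ctr' (s := s) (t := t) h1 hwA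
      have hs : ∀ γ : E → ℤ, ∑ e ∈ (⟨ctr A1 a1 s, ctr A1 a1 t⟩ : OrGraph V E).cut {w},
          (if (⟨ctr A1 a1 s, ctr A1 a1 t⟩ : OrGraph V E).t e = w then γ e else - γ e) =
          ∑ e ∈ (⟨s, t⟩ : OrGraph V E).cut {w},
          (if (⟨s, t⟩ : OrGraph V E).t e = w then γ e else - γ e) := by
        intro γ
        rw [hcut]
        refine sum_congr rfl fun e _ => ?_
        have h4 : (⟨ctr A1 a1 s, ctr A1 a1 t⟩ : OrGraph V E).t e = w ↔
            (⟨s, t⟩ : OrGraph V E).t e = w := ctr_eq h1 hwA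
        by_cases h : (⟨s, t⟩ : OrGraph V E).t e = w
        · rw [if_pos h, if_pos (h4.2 h)]
        · rw [if_neg h, if_neg (fun h' => h (h4.1 h'))]
      obtain ⟨u2, u4, hu, huv⟩ := hF1 w (by rw [hcut]; exact hw) α β (by rw [hs]; exact hα)
        (by rw [hs]; exact hβ) (by rw [hcut]; exact hok)
      rw [hcut] at huv
      obtain ⟨y2, y4, hy, hag⟩ := ext_side h1 h2 hd h3 hc hu (hF2 a2)
      refine ⟨_, _, glue2 h1 h2 hd hu hy fun e he => ⟨(hag e he).1.symm, (hag e he).2.symm⟩, ?_⟩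
      intro e he
      by_cases hin : s e ∈ A1 ∨ t e ∈ A1
      · have he2 : e ∈ cu s t A1 := by
          rw [mem_cut, mem_singleton, mem_singleton] at he
          rw [mem_cu]
          change ¬ (s e = w ↔ t e = w) at he
          by_cases h5 : s e = w
          · have h6 : s e ∉ A1 := by rw [h5]; exact hwA
            tauto
          · have h6 : t e = w := by
              by_contra h6
              exact he ⟨fun h => absurd h h5, fun h => absurd h h6⟩
            have h7 : t e ∉ A1 := by rw [h6]; exact hwA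
            tauto
        simp only [hin, if_true]
        rw [(hag e he2).1, (hag e he2).2]
        exact huv e he
      · simp only [hin, if_false]
        exact huv e he

end Pool.Agent.J6H24.HFC
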