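import Pool.Agent.J6H24.HFC.Conn
import Pool.Agent.R140.PK.Cover
import Pool.Agent.R129.Hfp.Ears

/-!
# `1/2`-flow-pairs and Petersen components
-/

set_option autoImplicit false
set_option linter.unusedSectionVars false
set_option linter.unusedVariables false

namespace Pool.Agent.J6H24.HFC

open Finset Pool.Agent.H160R2.HF Pool.Agent.H179R3.HF Pool.Agent.TH499.NF Pool.Agent.R129.Hfp
open Pool.Agent.TH362.TF (nb padj IsPQ PQ Joins NZ N1 Ends)
open Pool.Agent.R140.PK (cu mem_cu ctr MinP PetComp FC ConnS exists_MinP)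

variable {V E : Type} [Fintype V] [DecidableEq V] [Fintype E] [DecidableEq E]

/-- the values inside a Petersen component -/
def pv (s t : E → V) (κ : V → Fin 10) (c : Fin 10 → V) (Y : Fin 10 → Fin 10 → ℤ) (d : ℤ)
    (x : E → ℤ) (e : E) : ℤ :=
  if s e ∈ univ.image c then (if s e = t e then d else Y (κ (s e)) (κ (t e))) else x e

theorem pet_cl {s t : E → V} {κ : V → Fin 10} {c : Fin 10 → V} (h : PetComp s t κ c) (e : E) :
    s e ∈ univ.image c ↔ t e ∈ univ.image c := by
  rw [mem_image, mem_image]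
  constructor
  · rintro ⟨k, _, hk⟩
    obtain ⟨l, hl⟩ := h.cl e k hk.symm
    exact ⟨l, mem_univ _, hl.symm⟩
  · rintro ⟨k, _, hk⟩
    obtain ⟨l, hl⟩ := h.cl' e k hk.symm
    exact ⟨l, mem_univ _, hl.symm⟩

theorem pet_flow {s t : E → V} {κ : V → Fin 10} {c : Fin 10 → V} (h : PetComp s t κ c)
    {Y : Fin 10 → Fin 10 → ℤ} (ha : ∀ k l, Y l k = - Y k l) (hY : ∀ k, ∑ j, Y k (nb k j) = 0)
    (d : ℤ) {x : E → ℤ} {a : V} (haA : a ∈ univ.image c)
    (hx : (⟨ctr (univ.image c) a s, ctr (univ.image c) a t⟩ : OrGraph V E).IsFlow x) :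
    (⟨s, t⟩ : OrGraph V E).IsFlow (pv s t κ c Y d x) := by
  intro v
  show ∑ e with s e = v, _ = ∑ e with t e = v, _
  by_cases hv : v ∈ univ.image c
  · obtain ⟨k, _, rfl⟩ := mem_image.1 hv
    obtain ⟨f, hf, hE, hcut⟩ := h.star k
    have h1 := net_star (⟨s, t⟩ : OrGraph V E) (pv s t κ c Y d x) (c k)
    have hcut' : (⟨s, t⟩ : OrGraph V E).cut {c k} = univ.image f := by
      rw [← hcut]
      ext e
      rw [mem_cut, mem_singleton, mem_singleton]
      unfold Pool.Agent.TH362.TF.cut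
      rw [mem_filter]
      simp only [mem_univ, true_and, ne_eq, decide_eq_decide]
    rw [hcut', sum_image (fun a _ b _ hab => hf hab)] at h1
    have h2 : ∑ j, og (⟨s, t⟩ : OrGraph V E) (c k) (f j) * pv s t κ c Y d x (f j) =
        ∑ j, Y k (nb k j) := by
      refine sum_congr rfl fun j _ => ?_
      have hne : c k ≠ c (nb k j) := fun h' => nb_ne k j (h.inj h').symm
      rcases hE j with ⟨p, q⟩ | ⟨p, q⟩
      · have e1 : pv s t κ c Y d x (f j) = Y k (nb k j) := by
          unfold pv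
          rw [p, q, if_pos (mem_image_of_mem _ (mem_univ _)), if_neg hne, h.kc, h.kc]
        rw [e1]
        unfold og
        have e2 : (⟨s, t⟩ : OrGraph V E).t (f j) = c k := p
        rw [if_pos e2, one_mul]
      · have e1 : pv s t κ c Y d x (f j) = Y (nb k j) k := by
          unfold pv
          rw [p, q, if_pos (mem_image_of_mem _ (mem_univ _)), if_neg (Ne.symm hne), h.kc, h.kc]
        rw [e1, ha k (nb k j)]
        unfold og
        have e2 : ¬ (⟨s, t⟩ : OrGraph V E).t (f j) = c k := fun h' =>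
          hne (h'.symm.trans p)
        rw [if_neg e2]
        ring
    rw [h2, hY k] at h1
    unfold net at h1
    exact sub_eq_zero.1 h1
  · have e1 : ∑ e with s e = v, pv s t κ c Y d x e = ∑ e with s e = v, x e := by
      refine sum_congr rfl fun e he => ?_
      unfold pv
      rw [if_neg (by rw [(mem_filter.1 he).2]; exact hv)]
    have e2 : ∑ e with t e = v, pv s t κ c Y d x e = ∑ e with t e = v, x e := by
      refine sum_congr rfl fun e he => ?_
      unfold pv
      rw [if_neg (by rw [pet_cl h, (mem_filter.1 he).2]; exact hv)]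
    rw [e1, e2, flow_out haA hx hv]

theorem pet_pair {s t : E → V} {κ : V → Fin 10} {c : Fin 10 → V} (h : PetComp s t κ c)
    {Y2 Y4 : Fin 10 → Fin 10 → ℤ} (b1 : ∀ k l, Y2 l k = - Y2 k l) (b2 : ∀ k l, Y4 l k = - Y4 k l)
    (b3 : ∀ k, ∑ j, Y2 k (nb k j) = 0) (b4 : ∀ k, ∑ j, Y4 k (nb k j) = 0)
    (b5 : ∀ k l, padj k l = true → Ok (Y2 k l) (Y4 k l)) {x2 x4 : E → ℤ} {a : V}
    (haA : a ∈ univ.image c)
    (hx : (⟨ctr (univ.image c) a s, ctr (univ.image c) a t⟩ : OrGraph V E).IsHalfFlowPair x2 x4) :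
    (⟨s, t⟩ : OrGraph V E).IsHalfFlowPair (pv s t κ c Y2 0 x2) (pv s t κ c Y4 2 x4) := by
  obtain ⟨p1, p2, p3⟩ := (pair_iff_ok _ _ _).1 hx
  rw [pair_iff_ok]
  refine ⟨pet_flow h b1 b3 0 haA p1, pet_flow h b2 b4 2 haA p2, fun e => ?_⟩
  unfold pv
  by_cases h1 : s e ∈ univ.image c
  · rw [if_pos h1, if_pos h1]
    by_cases h2 : s e = t e
    · rw [if_pos h2, if_pos h2]
      unfold Ok
      norm_num
    · rw [if_neg h2, if_neg h2]
      have h3 := (pet_cl h e).1 h1
      obtain ⟨k, _, hk⟩ := mem_image.1 h1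
      obtain ⟨l, _, hl⟩ := mem_image.1 h3
      have hkl : κ (s e) ≠ κ (t e) := by
        rw [← hk, ← hl, h.kc, h.kc]
        intro h'
        exact h2 (by rw [← hk, ← hl, h'])
      exact b5 _ _ (adj_of (G := (⟨s, t⟩ : OrGraph V E)) h.pq hkl)
  · rw [if_neg h1, if_neg h1]
    exact p3 e

theorem PetComp.tau {s t : E → V} {κ : V → Fin 10} {c : Fin 10 → V} (h : PetComp s t κ c)
    (k : Fin 10) : PetComp s t (fun v => Pool.Agent.R129.Hfp.tau k (κ v))
      (fun j => c (Pool.Agent.R129.Hfp.sig k j)) := by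
  have hiff : ∀ l x, Pool.Agent.R129.Hfp.tau k x = l ↔ x = Pool.Agent.R129.Hfp.sig k l := by
    intro l x
    constructor
    · rintro rfl
      rw [sig_tau]
    · rintro rfl
      rw [tau_sig]
  refine ⟨?_, ?_, ?_, ?_, ?_⟩
  · exact isPQ_tau (G := (⟨s, t⟩ : OrGraph V E)) h.pq k
  · intro j
    show Pool.Agent.R129.Hfp.tau k (κ (c (Pool.Agent.R129.Hfp.sig k j))) = j
    rw [h.kc, tau_sig]
  · intro e j hj
    obtain ⟨l, hl⟩ := h.cl e _ hj
    exact ⟨Pool.Agent.R129.Hfp.tau k l, by rw [sig_tau]; exact hl⟩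
  · intro e j hj
    obtain ⟨l, hl⟩ := h.cl' e _ hj
    exact ⟨Pool.Agent.R129.Hfp.tau k l, by rw [sig_tau]; exact hl⟩
  · intro e j hj
    rw [hiff, hiff] at hj
    exact h.lv e _ hj

theorem pet_image {c : Fin 10 → V} (k : Fin 10) :
    univ.image (fun j => c (Pool.Agent.R129.Hfp.sig k j)) = univ.image c := by
  ext v
  rw [mem_image, mem_image]
  constructor
  · rintro ⟨j, _, rfl⟩
    exact ⟨_, mem_univ _, rfl⟩
  · rintro ⟨j, _, rfl⟩
    exact ⟨Pool.Agent.R129.Hfp.tau k j, mem_univ _, by rw [sig_tau]⟩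

/-- all values at the vertex `c 0` of a Petersen component extend -/
theorem pet_flex0 {s t : E → V} {κ : V → Fin 10} {c : Fin 10 → V} (h : PetComp s t κ c) {a : V}
    (haA : a ∈ univ.image c) {x2 x4 : E → ℤ}
    (hx : (⟨ctr (univ.image c) a s, ctr (univ.image c) a t⟩ : OrGraph V E).IsHalfFlowPair x2 x4) :
    FlexAt (⟨s, t⟩ : OrGraph V E) (c 0) := by
  intro hw α β hα hβ hok
  obtain ⟨f, hf, hE, hcut⟩ := h.star 0
  have hcut' : (⟨s, t⟩ : OrGraph V E).cut {c 0} = univ.image f := by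
    rw [← hcut]
    ext e
    rw [mem_cut, mem_singleton, mem_singleton]
    unfold Pool.Agent.TH362.TF.cut
    rw [mem_filter]
    simp only [mem_univ, true_and, ne_eq, decide_eq_decide]
  rw [hcut', sum_image (fun a _ b _ hab => hf hab)] at hα hβ
  let z : (E → ℤ) → Fin 3 → ℤ := fun γ d =>
    if (⟨s, t⟩ : OrGraph V E).t (f d) = c 0 then γ (f d) else - γ (f d)
  obtain ⟨Y2, Y4, b1, b2, b3, b4, b5, b6, b7⟩ := pet (z2 := z α) (z4 := z β) (by
    intro d
    have h0 := hok (f d) (by rw [hcut']; exact mem_image_of_mem _ (mem_univ _))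
    by_cases h1 : (⟨s, t⟩ : OrGraph V E).t (f d) = c 0
    · change Ok (if (⟨s, t⟩ : OrGraph V E).t (f d) = c 0 then α (f d) else - α (f d))
        (if (⟨s, t⟩ : OrGraph V E).t (f d) = c 0 then β (f d) else - β (f d))
      rw [if_pos h1, if_pos h1]
      exact h0
    · change Ok (if (⟨s, t⟩ : OrGraph V E).t (f d) = c 0 then α (f d) else - α (f d))
        (if (⟨s, t⟩ : OrGraph V E).t (f d) = c 0 then β (f d) else - β (f d))
      rw [if_neg h1, if_neg h1]
      exact ok_neg' h0) hα hβ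
  refine ⟨_, _, pet_pair h b1 b2 b3 b4 b5 haA hx, ?_⟩
  have key : ∀ (Y : Fin 10 → Fin 10 → ℤ) (γ : E → ℤ) (d0 : ℤ) (x : E → ℤ),
      (∀ k l, Y l k = - Y k l) → (∀ j, Y 0 (nb 0 j) = z γ j) →
      ∀ j, pv s t κ c Y d0 x (f j) = γ (f j) := by
    intro Y γ d0 x hY hY0 j
    have hne : c 0 ≠ c (nb 0 j) := fun h' => nb_ne 0 j (h.inj h').symm
    have h1 := hY0 j
    change _ = (if (⟨s, t⟩ : OrGraph V E).t (f j) = c 0 then γ (f j) else - γ (f j)) at h1
    rcases hE j with ⟨p, q⟩ | ⟨p, q⟩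
    · have e2 : (⟨s, t⟩ : OrGraph V E).t (f j) = c 0 := p
      rw [if_pos e2] at h1
      unfold pv
      rw [p, q, if_pos (mem_image_of_mem _ (mem_univ _)), if_neg hne, h.kc, h.kc, h1]
    · have e2 : ¬ (⟨s, t⟩ : OrGraph V E).t (f j) = c 0 := fun h' => hne (h'.symm.trans p)
      rw [if_neg e2] at h1
      unfold pv
      rw [p, q, if_pos (mem_image_of_mem _ (mem_univ _)), if_neg (Ne.symm hne), h.kc, h.kc,
        hY 0 (nb 0 j), h1, neg_neg]
  intro e he
  rw [hcut'] at he
  obtain ⟨j, _, rfl⟩ := mem_image.1 he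
  exact ⟨key Y2 α 0 x2 b1 b6 j, key Y4 β 2 x4 b2 b7 j⟩

theorem pp_pet {s t : E → V} {κ : V → Fin 10} {c : Fin 10 → V} (h : PetComp s t κ c)
    (hP : PP (ctr (univ.image c) (c 0) s) (ctr (univ.image c) (c 0) t)) : PP s t := by
  classical
  obtain ⟨⟨x2, x4, hx⟩, hF⟩ := hP
  have hm : ∀ k, c k ∈ univ.image c := fun k => mem_image_of_mem _ (mem_univ _)
  -- some values on the Petersen graph
  obtain ⟨Y2, Y4, b1, b2, b3, b4, b5, -, -⟩ := pet (z2 := ![1, -1, 0]) (z4 := ![-1, -1, 2]) (by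
    intro d
    fin_cases d <;> (unfold Ok; simp)) (by simp [Fin.sum_univ_succ])
    (by simp [Fin.sum_univ_succ])
  refine ⟨⟨_, _, pet_pair h b1 b2 b3 b4 b5 (hm 0) hx⟩, fun w => ?_⟩
  by_cases hw : w ∈ univ.image c
  · obtain ⟨k, _, rfl⟩ := mem_image.1 hw
    have h1 := PetComp.tau h k
    have h2 := pet_flex0 h1 (a := c 0) (x2 := x2) (x4 := x4)
      (by rw [pet_image]; exact hm 0) (by rw [pet_image]; exact hx)
    have h3 : Pool.Agent.R129.Hfp.sig k 0 = k := by
      have := sig_tau k k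
      rwa [tau_self] at this
    rw [h3] at h2
    exact h2
  · intro hw3 α β hα hβ hok
    have hcut := cut_ctr' (s := s) (t := t) (hm 0) hw
    have hs : ∀ γ : E → ℤ,
        ∑ e ∈ (⟨ctr (univ.image c) (c 0) s, ctr (univ.image c) (c 0) t⟩ : OrGraph V E).cut {w},
        (if (⟨ctr (univ.image c) (c 0) s, ctr (univ.image c) (c 0) t⟩ : OrGraph V E).t e = w
          then γ e else - γ e) =
        ∑ e ∈ (⟨s, t⟩ : OrGraph V E).cut {w},
        (if (⟨s, t⟩ : OrGraph V E).t e = w then γ e else - γ e) := by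
      intro γ
      rw [hcut]
      refine sum_congr rfl fun e _ => ?_
      have h4 : (⟨ctr (univ.image c) (c 0) s, ctr (univ.image c) (c 0) t⟩ : OrGraph V E).t e = w ↔
          (⟨s, t⟩ : OrGraph V E).t e = w := ctr_eq (hm 0) hw
      by_cases h : (⟨s, t⟩ : OrGraph V E).t e = w
      · rw [if_pos h, if_pos (h4.2 h)]
      · rw [if_neg h, if_neg (fun h' => h (h4.1 h'))]
    obtain ⟨u2, u4, hu, huv⟩ := hF w (by rw [hcut]; exact hw3) α β (by rw [hs]; exact hα)
      (by rw [hs]; exact hβ) (by rw [hcut]; exact hok)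
    rw [hcut] at huv
    refine ⟨_, _, pet_pair h b1 b2 b3 b4 b5 (hm 0) hu, ?_⟩
    intro e he
    have hne : s e ∉ univ.image c := by
      intro hin
      have hin2 := (pet_cl h e).1 hin
      rw [mem_cut, mem_singleton, mem_singleton] at he
      change ¬ (s e = w ↔ t e = w) at he
      by_cases h5 : s e = w
      · rw [h5] at hin; exact hw hin
      · have h6 : t e = w := by
          by_contra h6
          exact he ⟨fun h => absurd h h5, fun h => absurd h h6⟩
        rw [h6] at hin2; exact hw hin2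
    unfold pv
    rw [if_neg hne, if_neg hne]
    exact huv e he

/-- **Main theorem**: in a class `Q` of graphs which is closed under contraction of connected sets,
and whose members without edge cuts of size one have a nowhere-zero flow over the group of order
four or a Petersen quotient, every member without edge cuts of size one has a `1/2`-flow-pair, and
all admissible values at vertices of degree three extend. -/
theorem pp_main (Q : (E → V) → (E → V) → Prop)
    (hQ : ∀ (s t : E → V) (π : V → V), FC s t univ π → Q s t →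
      Q (fun e => π (s e)) (fun e => π (t e)))
    (hd : ∀ s t : E → V, N1 s t univ → Q s t → NZ s t univ ∨ PQ s t univ)
    {s t : E → V} (hn : N1 s t univ) (h : Q s t) : PP s t := by
  by_contra hcon
  obtain ⟨π, hπ, hM⟩ := exists_MinP PP s t hn hcon
  rcases hd _ _ hM.n1 (hQ s t π hπ h) with h1 | h1
  · have hb : ∀ X : Finset V, ((⟨fun e => π (s e), fun e => π (t e)⟩ : OrGraph V E).cut X).card ≠ 1 := by
      intro X h2
      apply hM.n1 (fun v => decide (v ∈ X))
      rw [← h2]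
      congr 1
      ext e
      rw [mem_cut]
      unfold Pool.Agent.TH362.TF.cut
      rw [mem_filter]
      simp only [mem_univ, true_and, ne_eq, decide_eq_decide]
    have h2 : NzK (⟨fun e => π (s e), fun e => π (t e)⟩ : OrGraph V E) := nzK_of h1
    exact hM.np ⟨pair_of_nz hb h2, flex_of_nz h2⟩
  · obtain ⟨κ, c, hc⟩ := hM.pet h1 (fun A1 A2 a1 a2 b1 b2 b3 b4 b5 b6 b7 =>
      pp_sum A1 A2 a1 a2 b1 b2 b3 b4 b5 b6 b7)
    obtain ⟨h2, h3⟩ := hc.conn
    exact hM.np (pp_pet hc (hM.mn _ _ (mem_image_of_mem _ (mem_univ _)) h2 h3))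

end Pool.Agent.J6H24.HFC
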